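import Mathlib

set_option autoImplicit false

namespace Pool.Agent.H25R3.RE

open MeasureTheory Set

variable {J : Type}

theorem measurable_add_const' (d : J → ZMod 2) : Measurable (fun x : J → ZMod 2 => x + d) := by
  refine measurable_pi_lambda _ (fun j => ?_)
  exact (measurable_from_top (f := fun a : ZMod 2 => a + d j)).comp (measurable_pi_apply j)

theorem measurable_comp_perm (e : J → J) : Measurable (fun x : J → ZMod 2 => fun j => x (e j)) :=
  measurable_pi_lambda _ (fun j => measurable_pi_apply (e j))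

/-- Uniqueness of invariant probability measures for a dense set of translations. -/
theorem cyl_measure (𝒟 : Set (J → ZMod 2))
    (hD : ∀ (s : Finset J) (a : J → ZMod 2), ∃ d ∈ 𝒟, ∀ i ∈ s, d i = a i)
    (μ : Measure (J → ZMod 2)) [IsProbabilityMeasure μ]
    (hμ : ∀ d ∈ 𝒟, μ.map (fun x => x + d) = μ) (s : Finset J) (b : (i : s) → ZMod 2) :
    (μ.map s.restrict) {b} = (Nat.card ((i : s) → ZMod 2) : ENNReal)⁻¹ := by
  classical
  have hmeas : Measurable (s.restrict (π := fun _ : J => ZMod 2)) := Finset.measurable_restrict s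
  have hconst : ∀ b : (i : s) → ZMod 2, (μ.map s.restrict) {b} = (μ.map s.restrict) {0} := by
    intro b
    obtain ⟨d, hd, hdb⟩ := hD s (fun j => if h : j ∈ s then b ⟨j, h⟩ else 0)
    rw [Measure.map_apply hmeas (MeasurableSet.singleton _),
      Measure.map_apply hmeas (MeasurableSet.singleton _)]
    conv_lhs => rw [← hμ d hd]
    rw [Measure.map_apply (measurable_add_const' d) (hmeas (MeasurableSet.singleton _))]
    congr 1
    ext x
    simp only [Set.mem_preimage, Set.mem_singleton_iff]
    constructor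
    · intro h
      funext i
      have h1 := congrFun h i
      have h2 := hdb i.1 i.2
      simp only [Finset.restrict, Pi.add_apply] at h1
      rw [h2, dif_pos i.2] at h1
      simpa using h1
    · intro h
      funext i
      have h1 := congrFun h i
      have h2 := hdb i.1 i.2
      simp only [Finset.restrict, Pi.zero_apply] at h1
      simp only [Finset.restrict, Pi.add_apply]
      rw [h2, dif_pos i.2, h1, zero_add]
  have : IsProbabilityMeasure (μ.map s.restrict) := Measure.isProbabilityMeasure_map hmeas.aemeasurable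
  have hsum : ∑ b : (i : s) → ZMod 2, (μ.map s.restrict) {b} = 1 := by
    rw [← measure_univ (μ := μ.map s.restrict), ← Finset.coe_univ, sum_measure_singleton]
  rw [Finset.sum_congr rfl (fun b _ => hconst b), Finset.sum_const, Finset.card_univ,
    nsmul_eq_mul] at hsum
  rw [hconst b, Nat.card_eq_fintype_card]
  exact ENNReal.eq_inv_of_mul_eq_one_left (by rw [mul_comm]; exact hsum)

theorem unique_inv (𝒟 : Set (J → ZMod 2))
    (hD : ∀ (s : Finset J) (a : J → ZMod 2), ∃ d ∈ 𝒟, ∀ i ∈ s, d i = a i)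
    (μ ν : Measure (J → ZMod 2)) [IsProbabilityMeasure μ] [IsProbabilityMeasure ν]
    (hμ : ∀ d ∈ 𝒟, μ.map (fun x => x + d) = μ) (hν : ∀ d ∈ 𝒟, ν.map (fun x => x + d) = ν) :
    μ = ν := by
  have h1 : IsProjectiveLimit μ (fun s : Finset J => μ.map s.restrict) := fun s => rfl
  have h2 : IsProjectiveLimit ν (fun s : Finset J => μ.map s.restrict) := by
    intro s
    apply Measure.ext_of_singleton
    intro b
    rw [cyl_measure 𝒟 hD μ hμ s b, cyl_measure 𝒟 hD ν hν s b]
  have : ∀ s : Finset J, IsFiniteMeasure (μ.map s.restrict) := fun s => by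
    have : IsProbabilityMeasure (μ.map s.restrict) :=
      Measure.isProbabilityMeasure_map (Finset.measurable_restrict s).aemeasurable
    infer_instance
  exact h1.unique h2

theorem perm_inv (𝒟 : Set (J → ZMod 2))
    (hD : ∀ (s : Finset J) (a : J → ZMod 2), ∃ d ∈ 𝒟, ∀ i ∈ s, d i = a i)
    (μ : Measure (J → ZMod 2)) [IsProbabilityMeasure μ]
    (hμ : ∀ d ∈ 𝒟, μ.map (fun x => x + d) = μ) (e : Equiv.Perm J)
    (he : ∀ d ∈ 𝒟, (fun j => d (e.symm j)) ∈ 𝒟) :
    μ.map (fun x j => x (e j)) = μ := by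
  have hm := measurable_comp_perm (J := J) e
  have : IsProbabilityMeasure (μ.map (fun x j => x (e j))) :=
    Measure.isProbabilityMeasure_map hm.aemeasurable
  refine unique_inv 𝒟 hD _ _ ?_ hμ
  intro d hd
  rw [Measure.map_map (measurable_add_const' d) hm]
  have h1 : (fun x : J → ZMod 2 => x + d) ∘ (fun x j => x (e j))
      = (fun x j => x (e j)) ∘ (fun x : J → ZMod 2 => x + fun j => d (e.symm j)) := by
    funext x j
    simp
  rw [h1, ← Measure.map_map hm (measurable_add_const' _), hμ _ (he d hd)]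

theorem zero_one (𝒟 : Set (J → ZMod 2))
    (hD : ∀ (s : Finset J) (a : J → ZMod 2), ∃ d ∈ 𝒟, ∀ i ∈ s, d i = a i)
    (μ : Measure (J → ZMod 2)) [IsProbabilityMeasure μ]
    (hμ : ∀ d ∈ 𝒟, μ.map (fun x => x + d) = μ) (W : Set (J → ZMod 2)) (hW : MeasurableSet W)
    (hinv : ∀ d ∈ 𝒟, ∀ x, x + d ∈ W ↔ x ∈ W) : μ W = 0 ∨ μ Wᶜ = 0 := by
  by_cases h0 : μ W = 0
  · exact Or.inl h0
  right
  have hprob : IsProbabilityMeasure (ProbabilityTheory.cond μ W) :=
    ProbabilityTheory.cond_isProbabilityMeasure h0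
  have heq : ProbabilityTheory.cond μ W = μ := by
    refine unique_inv 𝒟 hD _ _ ?_ hμ
    intro d hd
    ext B hB
    rw [Measure.map_apply (measurable_add_const' d) hB, ProbabilityTheory.cond_apply hW,
      ProbabilityTheory.cond_apply hW]
    congr 1
    have h1 : W ∩ (fun x => x + d) ⁻¹' B = (fun x => x + d) ⁻¹' (W ∩ B) := by
      ext x
      simp only [Set.mem_inter_iff, Set.mem_preimage, hinv d hd x]
    rw [h1, ← Measure.map_apply (measurable_add_const' d) (hW.inter hB), hμ d hd]
  rw [← heq, ProbabilityTheory.cond_apply hW, Set.inter_compl_self, measure_empty, mul_zero]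

theorem null_of_disjoint {α : Type} [MeasurableSpace α] (μ : Measure α) [IsFiniteMeasure μ]
    (S : Set α) (hS : MeasurableSet S) (τ : ℕ → α → α) (hτ : ∀ n, Measurable (τ n))
    (hinv : ∀ n, μ.map (τ n) = μ) (hdisj : ∀ n m, n ≠ m → Disjoint (τ n ⁻¹' S) (τ m ⁻¹' S)) :
    μ S = 0 := by
  by_contra h
  have h1 : ∀ n, μ (τ n ⁻¹' S) = μ S := by
    intro n
    rw [← Measure.map_apply (hτ n) hS, hinv n]
  have h2 : μ (⋃ n, τ n ⁻¹' S) = ∑' _ : ℕ, μ S := by
    rw [measure_iUnion (fun n m hnm => hdisj n m hnm) (fun n => hτ n hS)]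
    exact tsum_congr h1
  rw [ENNReal.tsum_const_eq_top_of_ne_zero h] at h2
  exact measure_ne_top _ _ h2

end Pool.Agent.H25R3.RE
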