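import Mathlib
import Pool.Agent.H25R3.RE.Inv

set_option autoImplicit false

namespace Pool.Agent.H25R3.RE

open MeasureTheory Set Submodule

/-- real sign character -/
def chiR (a : ZMod 2) : ℝ := if a = 0 then 1 else -1

theorem chiR_mul_self (a : ZMod 2) : chiR a * chiR a = 1 := by
  unfold chiR; split_ifs <;> norm_num

theorem zmod2_cases (a : ZMod 2) : a = 0 ∨ a = 1 := by
  revert a; decide

theorem chiR_zero : chiR 0 = 1 := if_pos rfl

theorem chiR_one : chiR 1 = -1 := if_neg (by decide)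

theorem chiR_add (a b : ZMod 2) : chiR (a + b) = chiR a * chiR b := by
  rcases zmod2_cases a with rfl | rfl <;> rcases zmod2_cases b with rfl | rfl
  · simp [chiR_zero]
  · simp [chiR_zero, chiR_one]
  · simp [chiR_zero, chiR_one]
  · have : (1 : ZMod 2) + 1 = 0 := by decide
    rw [this, chiR_zero, chiR_one]; norm_num

theorem chiR_inj (a b : ZMod 2) (h : chiR a = chiR b) : a = b := by
  rcases zmod2_cases a with rfl | rfl <;> rcases zmod2_cases b with rfl | rfl
  · rfl
  · rw [chiR_zero, chiR_one] at h; norm_num at h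
  · rw [chiR_zero, chiR_one] at h; norm_num at h
  · rfl

variable {I : Type}

/-- Walsh function -/
noncomputable def walsh (S : Finset I) : C(I → ZMod 2, ℝ) where
  toFun x := ∏ i ∈ S, chiR (x i)
  continuous_toFun := by
    refine continuous_finsetProd _ (fun i _ => ?_)
    exact (continuous_of_discreteTopology (f := chiR)).comp (continuous_apply i)

theorem walsh_apply (S : Finset I) (x : I → ZMod 2) : walsh S x = ∏ i ∈ S, chiR (x i) := rfl

theorem walsh_empty : walsh (∅ : Finset I) = 1 := by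
  ext x; simp [walsh_apply]

theorem walsh_mul [DecidableEq I] (S T : Finset I) : walsh S * walsh T = walsh (symmDiff S T) := by
  ext x
  simp only [ContinuousMap.mul_apply, walsh_apply]
  have h1 : ∏ i ∈ S, chiR (x i) = (∏ i ∈ S \ T, chiR (x i)) * ∏ i ∈ S ∩ T, chiR (x i) := by
    rw [← Finset.prod_sdiff (Finset.inter_subset_left : S ∩ T ⊆ S), Finset.sdiff_inter_self_left]
  have h3 : ∏ i ∈ T, chiR (x i) = (∏ i ∈ T \ S, chiR (x i)) * ∏ i ∈ S ∩ T, chiR (x i) := by
    rw [← Finset.prod_sdiff (Finset.inter_subset_right : S ∩ T ⊆ T), Finset.sdiff_inter_self_right]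
  have h4 : ∏ i ∈ symmDiff S T, chiR (x i)
      = (∏ i ∈ S \ T, chiR (x i)) * ∏ i ∈ T \ S, chiR (x i) := by
    have : symmDiff S T = (S \ T) ∪ (T \ S) := rfl
    rw [this, Finset.prod_union]
    exact disjoint_sdiff_sdiff
  have h5 : (∏ i ∈ S ∩ T, chiR (x i)) * ∏ i ∈ S ∩ T, chiR (x i) = 1 := by
    rw [← Finset.prod_mul_distrib]
    exact Finset.prod_eq_one (fun i _ => chiR_mul_self _)
  rw [h1, h3, h4]
  calc (∏ i ∈ S \ T, chiR (x i)) * (∏ i ∈ S ∩ T, chiR (x i)) *
        ((∏ i ∈ T \ S, chiR (x i)) * ∏ i ∈ S ∩ T, chiR (x i))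
      = (∏ i ∈ S \ T, chiR (x i)) * (∏ i ∈ T \ S, chiR (x i)) *
        ((∏ i ∈ S ∩ T, chiR (x i)) * ∏ i ∈ S ∩ T, chiR (x i)) := by ring
    _ = _ := by rw [h5, mul_one]

theorem span_walsh_closure_eq_top :
    (span ℝ (range (walsh (I := I)))).topologicalClosure = ⊤ := by
  classical
  have h1 : (Submonoid.closure (range (walsh (I := I))) : Set C(I → ZMod 2, ℝ))
      = range (walsh (I := I)) := by
    apply Set.Subset.antisymm
    · intro f hf
      induction hf using Submonoid.closure_induction with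
      | mem x hx => exact hx
      | one => exact ⟨∅, walsh_empty⟩
      | mul x y _ _ hx hy =>
        obtain ⟨S, rfl⟩ := hx
        obtain ⟨T, rfl⟩ := hy
        exact ⟨symmDiff S T, (walsh_mul S T).symm⟩
    · exact Submonoid.subset_closure
  have h2 : Subalgebra.toSubmodule (Algebra.adjoin ℝ (range (walsh (I := I))))
      = span ℝ (range (walsh (I := I))) := by
    rw [Algebra.adjoin_eq_span, h1]
  have h3 : (Algebra.adjoin ℝ (range (walsh (I := I)))).topologicalClosure = ⊤ := by
    apply ContinuousMap.subalgebra_topologicalClosure_eq_top_of_separatesPoints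
    intro x y hxy
    obtain ⟨i, hi⟩ := Function.ne_iff.1 hxy
    refine ⟨walsh {i}, ⟨walsh {i}, Algebra.subset_adjoin ⟨{i}, rfl⟩, rfl⟩, ?_⟩
    simp only [walsh_apply, Finset.prod_singleton]
    exact fun h => hi (chiR_inj _ _ h)
  rw [← h2]
  exact congrArg Subalgebra.toSubmodule h3

/-- Walsh function in L2 -/
noncomputable def walshLp (μ : Measure (I → ZMod 2)) [IsFiniteMeasure μ] [Countable I]
    (S : Finset I) : Lp ℝ 2 μ :=
  ContinuousMap.toLp (E := ℝ) 2 μ ℝ (walsh S)

theorem span_walshLp_closure_eq_top (μ : Measure (I → ZMod 2)) [IsFiniteMeasure μ] [Countable I] :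
    (span ℝ (range (walshLp μ))).topologicalClosure = ⊤ := by
  convert!
    (ContinuousMap.toLp_denseRange (p := 2) ℝ μ ℝ (by norm_num)).topologicalClosure_map_submodule
      (span_walsh_closure_eq_top (I := I))
  rw [map_span]
  unfold walshLp
  rw [range_comp']
  simp only [ContinuousLinearMap.coe_coe]

theorem measurable_walsh (S : Finset I) : Measurable (fun x : I → ZMod 2 => walsh S x) := by
  have h : (fun x : I → ZMod 2 => walsh S x) = fun x => ∏ i ∈ S, chiR (x i) := rfl
  rw [h]
  exact Finset.measurable_prod S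
    (fun i _ => (measurable_from_top (f := chiR)).comp (measurable_pi_apply i))

theorem walsh_abs (S : Finset I) (x : I → ZMod 2) : walsh S x = 1 ∨ walsh S x = -1 := by
  have h : walsh S x * walsh S x = 1 := by
    rw [walsh_apply, ← Finset.prod_mul_distrib]
    exact Finset.prod_eq_one (fun i _ => chiR_mul_self _)
  exact mul_self_eq_one_iff.1 h

theorem walsh_integral [DecidableEq I] (μ : Measure (I → ZMod 2)) [IsProbabilityMeasure μ]
    (hμ : ∀ i, μ.map (fun x => x + (Pi.single i 1 : I → ZMod 2)) = μ) (S : Finset I)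
    (hS : S.Nonempty) :
    ∫ x, walsh S x ∂μ = 0 := by
  obtain ⟨i, hi⟩ := hS
  have h1 : ∀ x : I → ZMod 2, walsh S (x + (Pi.single i 1 : I → ZMod 2)) = - walsh S x := by
    intro x
    simp only [walsh_apply]
    rw [← Finset.mul_prod_erase S _ hi, ← Finset.mul_prod_erase S _ hi]
    have h2 : ∏ j ∈ S.erase i, chiR ((x + (Pi.single i 1 : I → ZMod 2)) j)
        = ∏ j ∈ S.erase i, chiR (x j) := by
      refine Finset.prod_congr rfl (fun j hj => ?_)
      have hne : j ≠ i := Finset.ne_of_mem_erase hj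
      rw [Pi.add_apply, Pi.single_eq_of_ne hne, add_zero]
    rw [h2, Pi.add_apply, Pi.single_eq_same, chiR_add, chiR_one]
    ring
  have h3 : ∫ x, walsh S x ∂μ = ∫ x, walsh S (x + (Pi.single i 1 : I → ZMod 2)) ∂μ := by
    conv_lhs => rw [← hμ i]
    rw [integral_map (measurable_add_const' _).aemeasurable]
    exact (measurable_walsh S).aestronglyMeasurable
  have h4 : ∫ x, walsh S (x + (Pi.single i 1 : I → ZMod 2)) ∂μ = - ∫ x, walsh S x ∂μ := by
    rw [← integral_neg]
    exact integral_congr_ae (Filter.Eventually.of_forall (fun x => h1 x))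
  linarith

theorem orthonormal_walsh [Countable I] [DecidableEq I] (μ : Measure (I → ZMod 2))
    [IsProbabilityMeasure μ]
    (hμ : ∀ i, μ.map (fun x => x + (Pi.single i 1 : I → ZMod 2)) = μ) :
    Orthonormal ℝ (walshLp μ) := by
  rw [orthonormal_iff_ite]
  intro S T
  unfold walshLp
  rw [ContinuousMap.inner_toLp]
  have h1 : ∀ x : I → ZMod 2, walsh T x * (starRingEnd ℝ) (walsh S x) = walsh (symmDiff T S) x := by
    intro x
    rw [← walsh_mul]; rfl
  rw [integral_congr_ae (Filter.Eventually.of_forall h1)]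
  split_ifs with h
  · subst h
    rw [symmDiff_self]
    simp [walsh_apply]
  · apply walsh_integral μ hμ
    rw [Finset.nonempty_iff_ne_empty]
    intro h2
    exact h (symmDiff_eq_bot.1 h2).symm

theorem parseval [Countable I] [DecidableEq I] (μ : Measure (I → ZMod 2)) [IsProbabilityMeasure μ]
    (hμ : ∀ i, μ.map (fun x => x + (Pi.single i 1 : I → ZMod 2)) = μ)
    (φ : (I → ZMod 2) → ℝ) (hφ : MemLp φ 2 μ) :
    HasSum (fun S : Finset I => (∫ x, walsh S x * φ x ∂μ) ^ 2) (∫ x, φ x ^ 2 ∂μ) := by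
  set b := HilbertBasis.mk (orthonormal_walsh μ hμ) (span_walshLp_closure_eq_top μ).ge with hb
  have h1 := b.hasSum_inner_mul_inner (hφ.toLp φ) (hφ.toLp φ)
  have hbe : ∀ S, b S = walshLp μ S := fun S => by rw [hb, HilbertBasis.coe_mk]
  have h2 : inner ℝ (hφ.toLp φ) (hφ.toLp φ) = ∫ x, φ x ^ 2 ∂μ := by
    rw [L2.inner_def]
    refine integral_congr_ae ?_
    filter_upwards [hφ.coeFn_toLp] with x hx
    rw [hx]
    simp [pow_two]
  have h3 : ∀ S, inner ℝ (b S) (hφ.toLp φ) = ∫ x, walsh S x * φ x ∂μ := by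
    intro S
    rw [hbe, L2.inner_def]
    refine integral_congr_ae ?_
    filter_upwards [hφ.coeFn_toLp, ContinuousMap.coeFn_toLp (p := 2) (𝕜 := ℝ) μ (walsh S)]
      with x hx hx2
    rw [hx]
    unfold walshLp
    rw [hx2]
    simp [mul_comm]
  rw [h2] at h1
  have h4 : (fun S : Finset I => (∫ x, walsh S x * φ x ∂μ) ^ 2)
      = fun S => inner ℝ (hφ.toLp φ) (b S) * inner ℝ (b S) (hφ.toLp φ) := by
    funext S
    rw [real_inner_comm (b S) (hφ.toLp φ), h3, pow_two]
  rw [h4]
  exact h1

end Pool.Agent.H25R3.RE
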