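import Mathlib
import Pool.Agent.H25R3.RE.Walsh

set_option autoImplicit false

namespace Pool.Agent.H25R3.RE

open MeasureTheory Set Filter Topology

theorem mass_bound {𝔽 : Type} [DecidableEq 𝔽] (c : 𝔽 → ℝ) (hc : HasSum (fun S => c S ^ 2) 1)
    (α : ℕ → 𝔽 → 𝔽) (𝒮 : Set 𝔽)
    (hS : ∀ k l, ∀ S ∈ 𝒮, ∀ S' ∈ 𝒮, α k S = α l S' → k = l ∧ S = S') (K : ℕ) (δ : ℝ)
    (hδ : ∀ k < K, ∃ δ' ≤ δ, HasSum (fun S => (c (α k S) - c S) ^ 2) δ')
    (F : Finset 𝔽) (hF : ∀ S ∈ F, S ∈ 𝒮) : K * ∑ S ∈ F, c S ^ 2 ≤ 2 + 2 * K * δ := by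
  have h1 : ∀ k ∈ Finset.range K, ∑ S ∈ F, c S ^ 2 ≤ 2 * (∑ S ∈ F, c (α k S) ^ 2) + 2 * δ := by
    intro k hk
    obtain ⟨δ', hδ', hsum⟩ := hδ k (Finset.mem_range.1 hk)
    have h2 : ∑ S ∈ F, (c (α k S) - c S) ^ 2 ≤ δ' :=
      sum_le_hasSum F (fun _ _ => sq_nonneg _) hsum
    have h3 : ∑ S ∈ F, c S ^ 2 ≤
        ∑ S ∈ F, (2 * c (α k S) ^ 2 + 2 * (c (α k S) - c S) ^ 2) := by
      refine Finset.sum_le_sum (fun S _ => ?_)
      nlinarith [sq_nonneg (2 * c (α k S) - c S)]
    rw [Finset.sum_add_distrib, ← Finset.mul_sum, ← Finset.mul_sum] at h3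
    linarith
  have h2 := Finset.sum_le_sum h1
  rw [Finset.sum_const, Finset.card_range, nsmul_eq_mul, Finset.sum_add_distrib, ← Finset.mul_sum,
    Finset.sum_const, Finset.card_range, nsmul_eq_mul] at h2
  have h3 : ∑ k ∈ Finset.range K, ∑ S ∈ F, c (α k S) ^ 2 ≤ 1 := by
    rw [← Finset.sum_product']
    have h4 : Set.InjOn (fun p : ℕ × 𝔽 => α p.1 p.2) (Finset.range K ×ˢ F : Finset (ℕ × 𝔽)) := by
      rintro ⟨k, S⟩ hp ⟨l, S'⟩ hq h
      rw [Finset.mem_coe, Finset.mem_product] at hp hq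
      obtain ⟨h5, h6⟩ := hS k l S (hF S hp.2) S' (hF S' hq.2) h
      rw [h5, h6]
    rw [← Finset.sum_image (f := fun S => c S ^ 2) h4]
    exact sum_le_hasSum _ (fun _ _ => sq_nonneg _) hc
  linarith

variable {I : Type}

theorem pow_coords (X Y : I → ℤ) (e : Equiv.Perm I) (hX : ∀ i, X (e i) = X i + 3 * Y i)
    (hY : ∀ i, Y (e i) = Y i) (k : ℕ) (i : I) :
    X ((e ^ k) i) = X i + 3 * k * Y i ∧ Y ((e ^ k) i) = Y i := by
  induction k with
  | zero => simp
  | succ k ih =>
    rw [pow_succ', Equiv.Perm.mul_apply, hX, hY, ih.1, ih.2]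
    refine ⟨?_, rfl⟩
    push_cast; ring

/-- the cone-type family of finite sets -/
def fam (X Y : I → ℤ) : Set (Finset I) :=
  {S | S.Nonempty ∧ ∑ i ∈ S, |X i| ≤ ∑ i ∈ S, |Y i|}

theorem inj_family (X Y : I → ℤ) (hXY : ∀ i, X i ≠ 0 ∨ Y i ≠ 0) (e : Equiv.Perm I)
    (hX : ∀ i, X (e i) = X i + 3 * Y i) (hY : ∀ i, Y (e i) = Y i) (k l : ℕ)
    (S : Finset I) (hS : S ∈ fam X Y) (S' : Finset I) (hS' : S' ∈ fam X Y)
    (h : S.map (e ^ k).toEmbedding = S'.map (e ^ l).toEmbedding) : k = l ∧ S = S' := by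
  -- no member of the family is moved into the family by a positive power
  have key : ∀ m : ℕ, 1 ≤ m → ∀ T ∈ fam X Y, T.map (e ^ m).toEmbedding ∉ fam X Y := by
    rintro m hm T ⟨hT1, hT2⟩ ⟨_, hT3⟩
    rw [Finset.sum_map, Finset.sum_map] at hT3
    have h1 : ∑ i ∈ T, |Y ((e ^ m).toEmbedding i)| = ∑ i ∈ T, |Y i| := by
      refine Finset.sum_congr rfl (fun i _ => ?_)
      rw [Equiv.toEmbedding_apply, (pow_coords X Y e hX hY m i).2]
    have h2 : ∑ i ∈ T, (3 * |Y i| - |X i|) ≤ ∑ i ∈ T, |X ((e ^ m).toEmbedding i)| := by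
      refine Finset.sum_le_sum (fun i _ => ?_)
      rw [Equiv.toEmbedding_apply, (pow_coords X Y e hX hY m i).1]
      have h3 : |3 * (m : ℤ) * Y i| ≤ |X i + 3 * m * Y i| + |X i| := by
        have := abs_sub_abs_le_abs_sub (3 * (m : ℤ) * Y i) (-X i)
        have h4 : 3 * (m : ℤ) * Y i - -X i = X i + 3 * m * Y i := by ring
        rw [h4, abs_neg] at this
        linarith
      have h5 : |3 * (m : ℤ) * Y i| = 3 * m * |Y i| := by
        rw [abs_mul, abs_of_nonneg (by positivity)]
      have h6 : (1 : ℤ) ≤ m := by exact_mod_cast hm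
      have h7 := abs_nonneg (Y i)
      nlinarith
    rw [h1] at hT3
    rw [Finset.sum_sub_distrib, ← Finset.mul_sum] at h2
    have h3 : 0 < ∑ i ∈ T, (|X i| + |Y i|) := by
      refine Finset.sum_pos (fun i _ => ?_) hT1
      rcases hXY i with h | h
      · have := abs_pos.2 h
        have := abs_nonneg (Y i)
        linarith
      · have := abs_pos.2 h
        have := abs_nonneg (X i)
        linarith
    rw [Finset.sum_add_distrib] at h3
    linarith
  have hcancel : ∀ (a b : ℕ) (T T' : Finset I), a ≤ b →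
      T.map (e ^ a).toEmbedding = T'.map (e ^ b).toEmbedding →
      T = T'.map (e ^ (b - a)).toEmbedding := by
    intro a b T T' hab hT
    apply Finset.map_injective (e ^ a).toEmbedding
    rw [hT, Finset.map_map]
    congr 1
    ext i
    simp only [Equiv.toEmbedding_apply, Function.Embedding.trans_apply]
    rw [← Equiv.Perm.mul_apply, ← pow_add]
    congr 2
    omega
  rcases lt_trichotomy k l with hkl | hkl | hkl
  · exfalso
    have h1 := hcancel k l S S' hkl.le h
    apply key (l - k) (by omega) S' hS'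
    rw [← h1]; exact hS
  · refine ⟨hkl, ?_⟩
    subst hkl
    exact Finset.map_injective _ h
  · exfalso
    have h1 := hcancel l k S' S hkl.le h.symm
    apply key (k - l) (by omega) S hS
    rw [← h1]; exact hS'

theorem coeff_transform (μ : Measure (I → ZMod 2)) (e : Equiv.Perm I)
    (hμ : μ.map (fun x j => x (e j)) = μ) (φ : (I → ZMod 2) → ℝ) (hφ : Measurable φ)
    (S : Finset I) :
    ∫ x, walsh S x * φ (fun j => x (e.symm j)) ∂μ = ∫ x, walsh (S.map e.toEmbedding) x * φ x ∂μ := by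
  conv_lhs => rw [← hμ]
  rw [integral_map (measurable_comp_perm e).aemeasurable]
  · refine integral_congr_ae (Eventually.of_forall (fun x => ?_))
    simp only [walsh_apply, Finset.prod_map, Equiv.toEmbedding_apply, Equiv.apply_symm_apply]
  · exact ((measurable_walsh S).mul (hφ.comp (measurable_comp_perm e.symm))).aestronglyMeasurable

open Classical in
/-- sign function of a set -/
noncomputable def sgnF {α : Type} (C : Set α) (x : α) : ℝ := if x ∈ C then 1 else -1

theorem measurable_sgnF {α : Type} [MeasurableSpace α] (C : Set α) (hC : MeasurableSet C) :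
    Measurable (sgnF C) := Measurable.ite hC measurable_const measurable_const

theorem sgnF_sq {α : Type} (C : Set α) (x : α) : sgnF C x ^ 2 = 1 := by
  unfold sgnF; split_ifs <;> norm_num

theorem sgnF_abs {α : Type} (C : Set α) (x : α) : |sgnF C x| ≤ 1 := by
  unfold sgnF; split_ifs <;> norm_num

theorem sgnF_integral {α : Type} [MeasurableSpace α] (μ : Measure α) [IsProbabilityMeasure μ]
    (C : Set α) (hC : MeasurableSet C) (h : μ C = 1 / 2) : ∫ x, sgnF C x ∂μ = 0 := by
  classical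
  have h1 : ∀ x, sgnF C x = 2 * C.indicator (fun _ => (1 : ℝ)) x - 1 := by
    intro x
    unfold sgnF Set.indicator
    split_ifs <;> norm_num
  rw [integral_congr_ae (Eventually.of_forall h1), integral_sub, integral_const_mul,
    integral_indicator hC]
  · simp only [integral_const, MeasurableSet.univ, measureReal_restrict_apply, Set.univ_inter,
      smul_eq_mul, mul_one, probReal_univ]
    have : μ.real C = 1 / 2 := by
      unfold Measure.real
      rw [h]; simp
    rw [this]; norm_num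
  · apply Integrable.const_mul
    exact (integrable_const (1 : ℝ)).indicator hC
  · exact integrable_const _

theorem sgnF_diff_integral {α : Type} [MeasurableSpace α] (μ : Measure α) [IsProbabilityMeasure μ]
    (C : Set α) (T : α → α) (hC : MeasurableSet C) (hT : Measurable T) :
    ∫ x, (sgnF C (T x) - sgnF C x) ^ 2 ∂μ = 4 * μ.real {x | ¬ (T x ∈ C ↔ x ∈ C)} := by
  classical
  have hm : MeasurableSet {x | ¬ (T x ∈ C ↔ x ∈ C)} := by
    have : {x | ¬ (T x ∈ C ↔ x ∈ C)} = ((T ⁻¹' C) \ C) ∪ (C \ (T ⁻¹' C)) := by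
      ext x
      simp only [Set.mem_ofPred_eq, Set.mem_union, Set.mem_sdiff, Set.mem_preimage]
      tauto
    rw [this]
    exact ((hT hC).diff hC).union (hC.diff (hT hC))
  have h1 : ∀ x, (sgnF C (T x) - sgnF C x) ^ 2
      = {x | ¬ (T x ∈ C ↔ x ∈ C)}.indicator (fun _ => (4 : ℝ)) x := by
    intro x
    unfold sgnF
    by_cases h1 : T x ∈ C <;> by_cases h2 : x ∈ C
    · rw [if_pos h1, if_pos h2, Set.indicator_of_notMem]
      · norm_num
      · simp [h1, h2]
    · rw [if_pos h1, if_neg h2, Set.indicator_of_mem]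
      · norm_num
      · simp [h1, h2]
    · rw [if_neg h1, if_pos h2, Set.indicator_of_mem]
      · norm_num
      · simp [h1, h2]
    · rw [if_neg h1, if_neg h2, Set.indicator_of_notMem]
      · norm_num
      · simp [h1, h2]
  rw [integral_congr_ae (Eventually.of_forall h1), integral_indicator hm]
  simp [mul_comm]

end Pool.Agent.H25R3.RE
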