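import Mathlib
import Pool.Agent.H25R3.RE.Strong

set_option autoImplicit false

namespace Pool.Agent.H25R3.RE

open MeasureTheory Set Filter Topology

/-- nonzero integer vectors -/
abbrev PP : Type := {v : ℤ × ℤ // v ≠ 0}

/-- the index set -/
abbrev II : Type := PP × ℕ

/-- `(x, y) ↦ (x + 3 y, y)` -/
def permA : Equiv.Perm PP where
  toFun v := ⟨(v.1.1 + 3 * v.1.2, v.1.2), by
    intro h
    apply v.2
    have h1 := congrArg Prod.fst h
    have h2 := congrArg Prod.snd h
    simp only [Prod.fst_zero, Prod.snd_zero] at h1 h2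
    rw [h2] at h1
    ext
    · simpa using h1
    · exact h2⟩
  invFun v := ⟨(v.1.1 - 3 * v.1.2, v.1.2), by
    intro h
    apply v.2
    have h1 := congrArg Prod.fst h
    have h2 := congrArg Prod.snd h
    simp only [Prod.fst_zero, Prod.snd_zero] at h1 h2
    rw [h2] at h1
    ext
    · simpa using h1
    · exact h2⟩
  left_inv v := by ext <;> simp
  right_inv v := by ext <;> simp

/-- `(x, y) ↦ (x, y + 3 x)` -/
def permB : Equiv.Perm PP where
  toFun v := ⟨(v.1.1, v.1.2 + 3 * v.1.1), by
    intro h
    apply v.2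
    have h1 := congrArg Prod.fst h
    have h2 := congrArg Prod.snd h
    simp only [Prod.fst_zero, Prod.snd_zero] at h1 h2
    rw [h1] at h2
    ext
    · exact h1
    · simpa using h2⟩
  invFun v := ⟨(v.1.1, v.1.2 - 3 * v.1.1), by
    intro h
    apply v.2
    have h1 := congrArg Prod.fst h
    have h2 := congrArg Prod.snd h
    simp only [Prod.fst_zero, Prod.snd_zero] at h1 h2
    rw [h1] at h2
    ext
    · exact h1
    · simpa using h2⟩
  left_inv v := by ext <;> simp
  right_inv v := by ext <;> simp

/-- the acting group -/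
abbrev GG : Type := FreeGroup Bool

/-- the action on `PP` -/
def rho : GG →* Equiv.Perm PP := FreeGroup.lift (fun b => if b then permB else permA)

/-- the action on `II` -/
def eI : GG →* Equiv.Perm II where
  toFun g := Equiv.prodCongr (rho g) (Equiv.refl ℕ)
  map_one' := by ext i <;> simp
  map_mul' g h := by ext i <;> simp

theorem eI_apply (g : GG) (p : PP) (n : ℕ) : eI g (p, n) = (rho g p, n) := rfl

theorem eI_A (i : II) : eI (FreeGroup.of false) i = (permA i.1, i.2) := by
  show (rho (FreeGroup.of false) i.1, i.2) = _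
  simp [rho]

theorem eI_B (i : II) : eI (FreeGroup.of true) i = (permB i.1, i.2) := by
  show (rho (FreeGroup.of true) i.1, i.2) = _
  simp [rho]

/-- first coordinate -/
def cX (i : II) : ℤ := i.1.1.1
/-- second coordinate -/
def cY (i : II) : ℤ := i.1.1.2

theorem cXY (i : II) : cX i ≠ 0 ∨ cY i ≠ 0 := by
  by_contra h
  push Not at h
  exact i.1.2 (Prod.ext h.1 h.2)

theorem no_almost_inv (μ : Measure (II → ZMod 2)) [IsProbabilityMeasure μ]
    (hμ : ∀ i, μ.map (fun x => x + (Pi.single i 1 : II → ZMod 2)) = μ)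
    (hG : ∀ g : GG, μ.map (fun x j => x (eI g j)) = μ)
    (C : ℕ → Set (II → ZMod 2)) (hC : ∀ n, MeasurableSet (C n)) (hhalf : ∀ n, μ (C n) = 1 / 2)
    (hlim : ∀ g : GG, Tendsto (fun n =>
      μ {x | ¬ ((fun j => x ((eI g).symm j)) ∈ C n ↔ x ∈ C n)}) atTop (𝓝 0)) : False := by
  classical
  -- choose a good n
  have hev : ∀ g : GG, ∀ᶠ n in atTop,
      4 * μ.real {x | ¬ ((fun j => x ((eI g).symm j)) ∈ C n ↔ x ∈ C n)} ≤ 1 / 40 := by
    intro g
    have h1 : Tendsto (fun n => 4 *
      μ.real {x | ¬ ((fun j => x ((eI g).symm j)) ∈ C n ↔ x ∈ C n)}) atTop (𝓝 (4 * 0)) := by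
      apply Tendsto.const_mul
      exact (ENNReal.tendsto_toReal (by norm_num)).comp (hlim g)
    rw [mul_zero] at h1
    exact (h1.eventually (Iic_mem_nhds (by norm_num)))
  have hall : ∀ b : Bool, ∀ᶠ n in atTop, ∀ k ∈ Finset.range 5,
      4 * μ.real {x | ¬ ((fun j => x ((eI (FreeGroup.of b ^ k)).symm j)) ∈ C n ↔ x ∈ C n)}
        ≤ 1 / 40 := by
    intro b
    rw [Filter.eventually_all_finset]
    intro k _
    exact hev _
  obtain ⟨n, hn0, hn1⟩ := ((hall false).and (hall true)).exists
  set φ := sgnF (C n) with hφ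
  have hφm : Measurable φ := measurable_sgnF _ (hC n)
  have hφL : MemLp φ 2 μ := by
    refine MemLp.of_bound hφm.aestronglyMeasurable 1 (Eventually.of_forall (fun x => ?_))
    rw [Real.norm_eq_abs]; exact sgnF_abs _ _
  set c : Finset II → ℝ := fun S => ∫ x, walsh S x * φ x ∂μ with hc
  have hpars : HasSum (fun S => c S ^ 2) 1 := by
    have h1 := parseval μ hμ φ hφL
    have h2 : ∫ x, φ x ^ 2 ∂μ = 1 := by
      rw [integral_congr_ae (Eventually.of_forall (fun x => sgnF_sq (C n) x))]
      simp
    rwa [h2] at h1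
  have hc0 : c ∅ = 0 := by
    have h1 := sgnF_integral μ (C n) (hC n) (hhalf n)
    have h2 : c ∅ = ∫ x, φ x ∂μ := by
      rw [hc]
      refine integral_congr_ae (Eventually.of_forall (fun x => ?_))
      simp [walsh_apply]
    rw [h2]; exact h1
  have hdiff : ∀ g : GG, HasSum (fun S => (c (S.map (eI g).toEmbedding) - c S) ^ 2)
      (4 * μ.real {x | ¬ ((fun j => x ((eI g).symm j)) ∈ C n ↔ x ∈ C n)}) := by
    intro g
    have hTm : Measurable (fun (x : II → ZMod 2) j => x ((eI g).symm j)) :=
      measurable_comp_perm _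
    rw [← sgnF_diff_integral μ (C n) (fun x j => x ((eI g).symm j)) (hC n) hTm]
    have hψm : Measurable (fun x : II → ZMod 2 => φ (fun j => x ((eI g).symm j)) - φ x) :=
      (hφm.comp hTm).sub hφm
    have hψL : MemLp (fun x : II → ZMod 2 => φ (fun j => x ((eI g).symm j)) - φ x) 2 μ := by
      refine MemLp.of_bound hψm.aestronglyMeasurable 2 (Eventually.of_forall (fun x => ?_))
      rw [Real.norm_eq_abs]
      have h1 := sgnF_abs (C n) (fun j => x ((eI g).symm j))
      have h2 := sgnF_abs (C n) x
      have h3 := abs_sub (φ (fun j => x ((eI g).symm j))) (φ x)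
      linarith
    have h1 := parseval μ hμ _ hψL
    have h2 : ∀ S : Finset II, ∫ x, walsh S x * (φ (fun j => x ((eI g).symm j)) - φ x) ∂μ
        = c (S.map (eI g).toEmbedding) - c S := by
      intro S
      have hi1 : Integrable (fun x => walsh S x * φ (fun j => x ((eI g).symm j))) μ := by
        refine Integrable.of_bound ((measurable_walsh S).mul (hφm.comp hTm)).aestronglyMeasurable 1
          (Eventually.of_forall (fun x => ?_))
        rw [Real.norm_eq_abs, abs_mul]
        have h1 := sgnF_abs (C n) (fun j => x ((eI g).symm j))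
        rcases walsh_abs S x with h | h <;> rw [h] <;> simpa using h1
      have hi2 : Integrable (fun x => walsh S x * φ x) μ := by
        refine Integrable.of_bound ((measurable_walsh S).mul hφm).aestronglyMeasurable 1
          (Eventually.of_forall (fun x => ?_))
        rw [Real.norm_eq_abs, abs_mul]
        have h1 := sgnF_abs (C n) x
        rcases walsh_abs S x with h | h <;> rw [h] <;> simpa using h1
      simp_rw [mul_sub]
      rw [integral_sub hi1 hi2, coeff_transform μ (eI g) (hG g) φ hφm S]
    simp_rw [h2] at h1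
    exact h1
  -- the two families
  have hfA := mass_bound c hpars (fun k S => S.map (eI (FreeGroup.of false ^ k)).toEmbedding)
    (fam cX cY) (by
      intro k l S hS S' hS' h
      refine inj_family cX cY cXY (eI (FreeGroup.of false)) ?_ ?_ k l S hS S' hS' ?_
      · intro i; rw [eI_A]; rfl
      · intro i; rw [eI_A]; rfl
      · simpa only [map_pow] using h) 5 (1 / 40)
    (fun k hk => ⟨_, hn0 k (Finset.mem_range.2 hk), hdiff _⟩)
  have hfB := mass_bound c hpars (fun k S => S.map (eI (FreeGroup.of true ^ k)).toEmbedding)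
    (fam cY cX) (by
      intro k l S hS S' hS' h
      refine inj_family cY cX (fun i => (cXY i).symm) (eI (FreeGroup.of true)) ?_ ?_ k l S hS
        S' hS' ?_
      · intro i; rw [eI_B]; rfl
      · intro i; rw [eI_B]; rfl
      · simpa only [map_pow] using h) 5 (1 / 40)
    (fun k hk => ⟨_, hn1 k (Finset.mem_range.2 hk), hdiff _⟩)
  have hbound : ∀ F : Finset (Finset II), ∑ S ∈ F, c S ^ 2 ≤ 9 / 10 := by
    intro F
    have h1 := hfA (F.filter (fun S => S ∈ fam cX cY)) (fun S hS => (Finset.mem_filter.1 hS).2)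
    have h2 := hfB (F.filter (fun S => S ∈ fam cY cX)) (fun S hS => (Finset.mem_filter.1 hS).2)
    rw [Finset.sum_filter] at h1 h2
    have h3 : ∑ S ∈ F, c S ^ 2 ≤ ∑ S ∈ F, ((if S ∈ fam cX cY then c S ^ 2 else 0)
        + (if S ∈ fam cY cX then c S ^ 2 else 0)) := by
      refine Finset.sum_le_sum (fun S _ => ?_)
      have hsq := sq_nonneg (c S)
      rcases S.eq_empty_or_nonempty with rfl | hne
      · rw [hc0]
        split_ifs <;> norm_num
      · rcases le_total (∑ i ∈ S, |cX i|) (∑ i ∈ S, |cY i|) with h | h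
        · rw [if_pos (show S ∈ fam cX cY from ⟨hne, h⟩)]
          split_ifs <;> linarith
        · rw [if_pos (show S ∈ fam cY cX from ⟨hne, h⟩)]
          split_ifs <;> linarith
    rw [Finset.sum_add_distrib] at h3
    norm_num at h1 h2
    linarith
  have hfin := hasSum_le_of_sum_le hpars hbound
  norm_num at hfin

end Pool.Agent.H25R3.RE
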