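import Mathlib
import Pool.Agent.H25R3.RE.Ping

set_option autoImplicit false

namespace Pool.Agent.H25R3.RE

open MeasureTheory Set Filter Topology

section generic

variable {J : Type} {G : Type} [Group G] (e : G →* Equiv.Perm J)

/-- coordinate permutation action -/
def star (g : G) (z : J → ZMod 2) : J → ZMod 2 := fun j => z ((e g).symm j)

theorem star_one (z : J → ZMod 2) : star e 1 z = z := by
  funext j
  unfold star
  rw [map_one]; rfl

theorem star_mul (g h : G) (z : J → ZMod 2) : star e (g * h) z = star e g (star e h z) := by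
  funext j; simp [star, Equiv.Perm.mul_def]

theorem star_add (g : G) (z w : J → ZMod 2) : star e g (z + w) = star e g z + star e g w := rfl

theorem star_sub (g : G) (z w : J → ZMod 2) : star e g (z - w) = star e g z - star e g w := rfl

theorem star_inv_star (g : G) (z : J → ZMod 2) : star e g⁻¹ (star e g z) = z := by
  rw [← star_mul, inv_mul_cancel, star_one]

theorem measurable_star (g : G) : Measurable (star e g) := measurable_comp_perm _

variable (𝒟 : AddSubgroup (J → ZMod 2))

/-- The orbit relation generated by the coordinate permutations and the translations in `𝒟`. -/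
def Rel (z z' : J → ZMod 2) : Prop := ∃ g : G, z' - star e g z ∈ 𝒟

theorem rel_equiv (h𝒟 : ∀ g, ∀ d ∈ 𝒟, star e g d ∈ 𝒟) : Equivalence (Rel e 𝒟) where
  refl z := ⟨1, by rw [star_one, sub_self]; exact 𝒟.zero_mem⟩
  symm := by
    rintro z z' ⟨g, hg⟩
    refine ⟨g⁻¹, ?_⟩
    have h1 := h𝒟 g⁻¹ _ hg
    rw [star_sub, star_inv_star] at h1
    have h2 := 𝒟.neg_mem h1
    rwa [neg_sub] at h2
  trans := by
    rintro z z' z'' ⟨g, hg⟩ ⟨g', hg'⟩
    refine ⟨g' * g, ?_⟩
    have h1 := h𝒟 g' _ hg
    rw [star_sub] at h1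
    have h2 := 𝒟.add_mem hg' h1
    rw [star_mul]
    rwa [sub_add_sub_cancel] at h2

theorem rel_countable [Countable G] (hc : (𝒟 : Set (J → ZMod 2)).Countable) (z : J → ZMod 2) :
    {z' | Rel e 𝒟 z z'}.Countable := by
  have h1 : {z' | Rel e 𝒟 z z'} = ⋃ g : G, (fun d => d + star e g z) '' (𝒟 : Set (J → ZMod 2)) := by
    ext z'
    simp only [Set.mem_ofPred_eq, Set.mem_iUnion, Set.mem_image, SetLike.mem_coe]
    constructor
    · rintro ⟨g, hg⟩
      exact ⟨g, _, hg, sub_add_cancel _ _⟩
    · rintro ⟨g, d, hd, rfl⟩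
      exact ⟨g, by rwa [add_sub_cancel_right]⟩
  rw [h1]
  exact Set.countable_iUnion (fun g => hc.image _)

theorem rel_borel [Countable J] [Countable G] (hc : (𝒟 : Set (J → ZMod 2)).Countable) :
    MeasurableSet {p : (J → ZMod 2) × (J → ZMod 2) | Rel e 𝒟 p.1 p.2} := by
  have h1 : {p : (J → ZMod 2) × (J → ZMod 2) | Rel e 𝒟 p.1 p.2}
      = ⋃ g : G, ⋃ d ∈ (𝒟 : Set (J → ZMod 2)),
        {p : (J → ZMod 2) × (J → ZMod 2) | p.2 = star e g p.1 + d} := by
    ext p
    simp only [Set.mem_ofPred_eq, Set.mem_iUnion, SetLike.mem_coe, exists_prop]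
    constructor
    · rintro ⟨g, hg⟩
      exact ⟨g, _, hg, by abel⟩
    · rintro ⟨g, d, hd, h⟩
      exact ⟨g, by rw [h, add_sub_cancel_left]; exact hd⟩
  rw [h1]
  refine MeasurableSet.iUnion (fun g => MeasurableSet.biUnion hc (fun d _ => ?_))
  exact measurableSet_eq_fun measurable_snd
    ((measurable_add_const' d).comp ((measurable_star e g).comp measurable_fst))

end generic

/-- finitely supported configurations -/
abbrev DD : Type := II →₀ ZMod 2

/-- the base space -/
abbrev XX : Type := II → ZMod 2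

/-- index set of the extended space -/
abbrev JZ : Type := II ⊕ ℕ

/-- the extended space -/
abbrev ZZ : Type := JZ → ZMod 2

/-- the finitely supported configurations as a group of translations -/
noncomputable def DX : AddSubgroup XX := (Finsupp.coeFnAddHom : DD →+ XX).range

/-- column sums -/
noncomputable def colsum (d : DD) : ℕ →₀ ZMod 2 := d.mapDomain Prod.snd

/-- the embedding of `DD` in the extended space -/
noncomputable def epsZ : DD →+ ZZ where
  toFun d := Sum.elim (⇑d) (⇑(colsum d))
  map_zero' := by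
    funext j; rcases j with j | j <;> simp [colsum]
  map_add' d d' := by
    funext j; rcases j with j | j <;> simp [colsum, Finsupp.mapDomain_add]

/-- translations on the extended space -/
noncomputable def DZ : AddSubgroup ZZ := epsZ.range

/-- the action on the extended index set -/
def eZ : GG →* Equiv.Perm JZ where
  toFun g := Equiv.sumCongr (eI g) (Equiv.refl ℕ)
  map_one' := by ext i; rcases i with i | i <;> simp
  map_mul' g h := by ext i; rcases i with i | i <;> simp

/-- action on finitely supported configurations -/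
noncomputable def actD (g : GG) (d : DD) : DD := d.equivMapDomain (eI g)

theorem actD_coe (g : GG) (d : DD) : ⇑(actD g d) = star eI g (⇑d) := by
  funext j
  rw [actD, Finsupp.equivMapDomain_apply]
  rfl

theorem colsum_actD (g : GG) (d : DD) : colsum (actD g d) = colsum d := by
  unfold colsum actD
  rw [Finsupp.equivMapDomain_eq_mapDomain, ← Finsupp.mapDomain_comp]
  congr 1

theorem star_DX : ∀ g, ∀ d ∈ DX, star eI g d ∈ DX := by
  rintro g _ ⟨d, rfl⟩
  exact ⟨actD g d, actD_coe g d⟩

theorem star_epsZ (g : GG) (d : DD) : star eZ g (epsZ d) = epsZ (actD g d) := by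
  funext j
  rcases j with j | j
  · show (d : II → ZMod 2) ((eI g).symm j) = (actD g d) j
    rw [actD_coe]; rfl
  · show colsum d j = colsum (actD g d) j
    rw [colsum_actD]

theorem star_DZ : ∀ g, ∀ d ∈ DZ, star eZ g d ∈ DZ := by
  rintro g _ ⟨d, rfl⟩
  exact ⟨actD g d, (star_epsZ g d).symm⟩

theorem DX_countable : (DX : Set XX).Countable := by
  have h : (DX : Set XX) = Set.range (Finsupp.coeFnAddHom : DD →+ XX) := by
    ext x; exact Iff.rfl
  rw [h]
  exact Set.countable_range _

theorem DZ_countable : (DZ : Set ZZ).Countable := by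
  have h : (DZ : Set ZZ) = Set.range epsZ := by
    ext x; exact Iff.rfl
  rw [h]
  exact Set.countable_range _

/-- the base relation -/
def RX : XX → XX → Prop := Rel eI DX

/-- the extended relation (on all of the extended space) -/
def RZ : ZZ → ZZ → Prop := Rel eZ DZ

/-- projection -/
def pr (z : ZZ) : XX := fun i => z (Sum.inl i)

theorem measurable_pr : Measurable pr := measurable_pi_lambda _ (fun _ => measurable_pi_apply _)

/-- good part of the base space -/
def X0 : Set XX := {x | ∀ (g : GG) (d : DD), x = star eI g x + ⇑d → colsum d = 0}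

theorem RX_iff (x x' : XX) : RX x x' ↔ ∃ (g : GG) (d : DD), x' = star eI g x + ⇑d := by
  constructor
  · rintro ⟨g, d, hd⟩
    refine ⟨g, d, ?_⟩
    have h : (⇑d : XX) = x' - star eI g x := hd
    rw [h]; abel
  · rintro ⟨g, d, rfl⟩
    exact ⟨g, d, by rw [add_sub_cancel_left]; rfl⟩

theorem RZ_iff (z z' : ZZ) : RZ z z' ↔ ∃ (g : GG) (d : DD), z' = star eZ g z + epsZ d := by
  constructor
  · rintro ⟨g, d, hd⟩
    exact ⟨g, d, by rw [hd]; abel⟩
  · rintro ⟨g, d, rfl⟩
    exact ⟨g, d, by rw [add_sub_cancel_left]⟩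

theorem pr_star (g : GG) (z : ZZ) : pr (star eZ g z) = star eI g (pr z) := rfl

theorem pr_eps (d : DD) : pr (epsZ d) = ⇑d := rfl

theorem pr_add (z w : ZZ) : pr (z + w) = pr z + pr w := rfl

theorem RX_equiv : Equivalence RX := rel_equiv eI DX star_DX
theorem RZ_equiv : Equivalence RZ := rel_equiv eZ DZ star_DZ

theorem X0_inv (x x' : XX) (hx : x ∈ X0) (h : RX x x') : x' ∈ X0 := by
  obtain ⟨g', d', rfl⟩ := (RX_iff _ _).1 h
  intro g d hgd
  -- x = (g'⁻¹ g g') x + g'⁻¹ (g d' + d - d')
  have h1 : x = star eI (g'⁻¹ * g * g') x + ⇑(actD g'⁻¹ (actD g d' + d - d')) := by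
    have h2 := congrArg (star eI g'⁻¹) hgd
    rw [star_add, star_add, star_inv_star, star_add] at h2
    have h3 : (⇑(actD g'⁻¹ (actD g d' + d - d')) : XX)
        = star eI g'⁻¹ (star eI g ⇑d') + star eI g'⁻¹ ⇑d - star eI g'⁻¹ ⇑d' := by
      rw [actD_coe, Finsupp.coe_sub, Finsupp.coe_add, star_sub, star_add, actD_coe]
    rw [h3, star_mul, star_mul]
    rw [star_add] at h2
    have h4 : x = x + star eI g'⁻¹ ⇑d' - star eI g'⁻¹ ⇑d' := by abel
    rw [h2] at h4
    conv_lhs => rw [h4]
    abel
  have h2 := hx _ _ h1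
  rw [colsum_actD] at h2
  have h3 : colsum (actD g d' + d - d') = colsum (actD g d') + colsum d - colsum d' := by
    unfold colsum
    rw [sub_eq_add_neg, Finsupp.mapDomain_add, Finsupp.mapDomain_add, sub_eq_add_neg]
    congr 1
    exact map_neg (Finsupp.mapDomain.addMonoidHom (Prod.snd : II → ℕ)) d'
  rw [h3, colsum_actD, add_sub_cancel_left] at h2
  exact h2

/-- good part of the extended space -/
def Z0 : Set ZZ := pr ⁻¹' X0

theorem RZ_pr (z z' : ZZ) (h : RZ z z') : RX (pr z) (pr z') := by
  obtain ⟨g, d, rfl⟩ := (RZ_iff _ _).1 h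
  exact (RX_iff _ _).2 ⟨g, d, rfl⟩

theorem Z0_inv (z z' : ZZ) (hz : z ∈ Z0) (h : RZ z z') : z' ∈ Z0 :=
  X0_inv _ _ hz (RZ_pr _ _ h)

theorem RZ_lift (z : ZZ) (x' : XX) (h : RX (pr z) x') : ∃ z', RZ z z' ∧ pr z' = x' := by
  obtain ⟨g, d, rfl⟩ := (RX_iff _ _).1 h
  exact ⟨star eZ g z + epsZ d, (RZ_iff _ _).2 ⟨g, d, rfl⟩, rfl⟩

theorem RZ_inj (z z' : ZZ) (hz : z ∈ Z0) (h : RZ z z') (hp : pr z' = pr z) : z' = z := by
  obtain ⟨g, d, rfl⟩ := (RZ_iff _ _).1 h
  have h1 : colsum d = 0 := hz g d hp.symm
  funext j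
  rcases j with j | j
  · exact congrFun hp j
  · show z (Sum.inr j) + colsum d j = z (Sum.inr j)
    rw [h1]; simp

theorem X0_measurable : MeasurableSet X0 := by
  have h1 : X0 = ⋂ (g : GG) (d : DD), {x : XX | x = star eI g x + ⇑d → colsum d = 0} := by
    ext x
    simp only [X0, Set.mem_iInter, Set.mem_ofPred_eq]
  rw [h1]
  refine MeasurableSet.iInter (fun g => MeasurableSet.iInter (fun d => ?_))
  by_cases hd : colsum d = 0
  · have : {x : XX | x = star eI g x + ⇑d → colsum d = 0} = Set.univ := by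
      ext x; simp [hd]
    rw [this]; exact MeasurableSet.univ
  · have : {x : XX | x = star eI g x + ⇑d → colsum d = 0} = {x : XX | x = star eI g x + ⇑d}ᶜ := by
      ext x; simp [hd]
    rw [this]
    exact (measurableSet_eq_fun measurable_id
      ((measurable_add_const' _).comp (measurable_star eI g))).compl

theorem Z0_measurable : MeasurableSet Z0 := measurable_pr X0_measurable

end Pool.Agent.H25R3.RE
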