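import Mathlib
import Pool.Agent.H25R3.RE.Rel

set_option autoImplicit false

namespace Pool.Agent.H25R3.RE

open MeasureTheory Set Filter Topology

/-- Haar probability measure on the extended space -/
noncomputable def mZ : Measure ZZ :=
  Measure.addHaarMeasure (⊤ : TopologicalSpace.PositiveCompacts ZZ)

instance : IsProbabilityMeasure mZ := by
  refine ⟨?_⟩
  have h := Measure.addHaarMeasure_self (K₀ := (⊤ : TopologicalSpace.PositiveCompacts ZZ))
  exact h

theorem mZ_add (d : ZZ) : mZ.map (fun x => x + d) = mZ := by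
  have : mZ.IsAddLeftInvariant := by unfold mZ; infer_instance
  exact map_add_right_eq_self mZ d

theorem mZ_perm (e : Equiv.Perm JZ) : mZ.map (fun x j => x (e j)) = mZ := by
  refine perm_inv Set.univ (fun _ a => ⟨a, Set.mem_univ _, fun _ _ => rfl⟩) mZ
    (fun d _ => mZ_add d) e (fun _ _ => Set.mem_univ _)

theorem mZ_star (g : GG) : mZ.map (star eZ g) = mZ := mZ_perm (eZ g).symm

/-- the basic moves -/
noncomputable def mv (γ : GG × DD) (z : ZZ) : ZZ := star eZ γ.1 z + epsZ γ.2

theorem measurable_mv (γ : GG × DD) : Measurable (mv γ) :=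
  (measurable_add_const' _).comp (measurable_star eZ γ.1)

theorem mZ_mv (γ : GG × DD) : mZ.map (mv γ) = mZ := by
  have h1 : mv γ = (fun x => x + epsZ γ.2) ∘ (star eZ γ.1) := rfl
  rw [h1, ← Measure.map_map (measurable_add_const' _) (measurable_star eZ γ.1), mZ_star, mZ_add]

theorem mv_injective (γ : GG × DD) : Function.Injective (mv γ) := by
  intro z w h
  unfold mv at h
  have h1 := add_right_cancel h
  have h2 := congrArg (star eZ γ.1⁻¹) h1
  rwa [star_inv_star, star_inv_star] at h2

theorem RZ_mv (γ : GG × DD) (z : ZZ) : RZ z (mv γ z) := (RZ_iff _ _).2 ⟨γ.1, γ.2, rfl⟩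

theorem exists_mv (z z' : ZZ) (h : RZ z z') : ∃ γ, z' = mv γ z := by
  obtain ⟨g, d, h⟩ := (RZ_iff _ _).1 h
  exact ⟨(g, d), h⟩

theorem fix_null (g : GG) (d : DD) (hd : colsum d ≠ 0) :
    mZ {z : ZZ | pr z = star eI g (pr z) + ⇑d} = 0 := by
  by_cases hg : ∃ p : PP, (rho g).symm p ≠ p
  · obtain ⟨p, hp⟩ := hg
    set q : PP := (rho g).symm p with hq
    set N : Set ZZ := {z | ∀ n : ℕ, z (Sum.inl (p, n)) = z (Sum.inl (q, n)) + d (p, n)} with hN
    have hsub : {z : ZZ | pr z = star eI g (pr z) + ⇑d} ⊆ N := by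
      intro z hz n
      exact congrFun hz (p, n)
    have hNm : MeasurableSet N := by
      have : N = ⋂ n : ℕ, {z : ZZ | z (Sum.inl (p, n)) = z (Sum.inl (q, n)) + d (p, n)} := by
        ext z; simp [hN]
      rw [this]
      refine MeasurableSet.iInter (fun n => ?_)
      exact measurableSet_eq_fun (measurable_pi_apply _)
        ((measurable_from_top (f := fun a : ZMod 2 => a + d (p, n))).comp (measurable_pi_apply _))
    refine measure_mono_null hsub ?_
    refine null_of_disjoint mZ N hNm
      (fun n z => z + (Pi.single (Sum.inl (p, n)) 1 : ZZ)) (fun n => measurable_add_const' _)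
      (fun n => mZ_add _) ?_
    intro n m hnm
    rw [Set.disjoint_left]
    intro z h1 h2
    have h3 := h1 n
    have h4 := h2 n
    simp only [Pi.add_apply] at h3 h4
    have hne1 : (Sum.inl (q, n) : JZ) ≠ Sum.inl (p, n) := by
      intro h; exact hp (congrArg Prod.fst (Sum.inl_injective h))
    have hne2 : (Sum.inl (q, n) : JZ) ≠ Sum.inl (p, m) := by
      intro h; exact hp (congrArg Prod.fst (Sum.inl_injective h))
    have hne3 : (Sum.inl (p, n) : JZ) ≠ Sum.inl (p, m) := by
      intro h; exact hnm (congrArg Prod.snd (Sum.inl_injective h))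
    rw [Pi.single_eq_same, Pi.single_eq_of_ne hne1, add_zero] at h3
    rw [Pi.single_eq_of_ne hne3, Pi.single_eq_of_ne hne2, add_zero, add_zero] at h4
    rw [← h4] at h3
    have h5 : (1 : ZMod 2) = 0 := by
      have := congrArg (fun a => a - z (Sum.inl (p, n))) h3
      simpa using this
    exact one_ne_zero h5
  · push Not at hg
    have hstar : ∀ x : XX, star eI g x = x := by
      intro x
      funext i
      show x ((eI g).symm i) = x i
      have h1 : (eI g).symm i = i := by
        show ((rho g).symm i.1, i.2) = i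
        rw [hg]
      rw [h1]
    have hempty : {z : ZZ | pr z = star eI g (pr z) + ⇑d} = ∅ := by
      ext z
      simp only [Set.mem_ofPred_eq, Set.mem_empty_iff_false, iff_false]
      intro h
      rw [hstar] at h
      apply hd
      have h1 : (⇑d : XX) = 0 := by
        have h2 : pr z + 0 = pr z + ⇑d := by rw [add_zero]; exact h
        exact (add_left_cancel h2).symm
      have h3 : d = 0 := DFunLike.coe_injective h1
      rw [h3]; simp [colsum]
    rw [hempty, measure_empty]

theorem Z0_full : mZ Z0ᶜ = 0 := by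
  have h1 : Z0ᶜ ⊆ ⋃ (γ : GG × DD) (_ : colsum γ.2 ≠ 0),
      {z : ZZ | pr z = star eI γ.1 (pr z) + ⇑γ.2} := by
    intro z hz
    have h2 : ¬ (∀ (g : GG) (d : DD), pr z = star eI g (pr z) + ⇑d → colsum d = 0) := hz
    push Not at h2
    obtain ⟨g, d, h3, h4⟩ := h2
    simp only [Set.mem_iUnion]
    exact ⟨(g, d), h4, h3⟩
  refine measure_mono_null h1 ?_
  rw [measure_iUnion_null_iff]
  intro γ
  rw [measure_iUnion_null_iff]
  intro hγ
  exact fix_null γ.1 γ.2 hγ

theorem Z0_one : mZ Z0 = 1 := by
  have h := prob_compl_eq_zero_iff (μ := mZ) Z0_measurable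
  exact h.1 Z0_full

instance : Infinite PP := by
  refine Infinite.of_injective (fun k : ℕ => (⟨((k : ℤ) + 1, 0), by
    intro h
    have := congrArg Prod.fst h
    simp only [Prod.fst_zero] at this
    omega⟩ : PP)) ?_
  intro a b h
  have h1 := congrArg (fun v : PP => v.1.1) h
  simp only at h1
  omega

theorem DZ_dense (s : Finset JZ) (a : ZZ) : ∃ d ∈ (DZ : Set ZZ), ∀ i ∈ s, d i = a i := by
  classical
  obtain ⟨p, hp⟩ := Infinite.exists_notMem_finset (s.toLeft.image Prod.fst)
  set d0 : DD := ∑ i ∈ s.toLeft, Finsupp.single i (a (Sum.inl i)) with hd0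
  set d1 : DD := ∑ n ∈ s.toRight, Finsupp.single (p, n) (a (Sum.inr n) - colsum d0 n) with hd1
  refine ⟨epsZ (d0 + d1), ⟨d0 + d1, rfl⟩, ?_⟩
  intro j hj
  rcases j with i | n
  · show (d0 + d1) i = a (Sum.inl i)
    have hi : i ∈ s.toLeft := Finset.mem_toLeft.2 hj
    have h1 : d0 i = a (Sum.inl i) := by
      rw [hd0, Finsupp.finsetSum_apply, Finset.sum_eq_single i]
      · simp
      · intro b _ hb
        rw [Finsupp.single_apply, if_neg hb]
      · intro h; exact absurd hi h
    have h2 : d1 i = 0 := by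
      rw [hd1, Finsupp.finsetSum_apply]
      refine Finset.sum_eq_zero (fun n _ => ?_)
      rw [Finsupp.single_apply, if_neg]
      intro h
      apply hp
      rw [Finset.mem_image]
      exact ⟨i, hi, by rw [← h]⟩
    rw [Finsupp.add_apply, h1, h2, add_zero]
  · show colsum (d0 + d1) n = a (Sum.inr n)
    have hn : n ∈ s.toRight := Finset.mem_toRight.2 hj
    have h1 : colsum (d0 + d1) = colsum d0 + colsum d1 := Finsupp.mapDomain_add
    have h2 : colsum d1 = ∑ n ∈ s.toRight, Finsupp.single n (a (Sum.inr n) - colsum d0 n) := by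
      unfold colsum
      rw [hd1, Finsupp.mapDomain_finsetSum]
      refine Finset.sum_congr rfl (fun n _ => ?_)
      rw [Finsupp.mapDomain_single]; rfl
    have h3 : colsum d1 n = a (Sum.inr n) - colsum d0 n := by
      rw [h2, Finsupp.finsetSum_apply, Finset.sum_eq_single n]
      · simp
      · intro b _ hb
        rw [Finsupp.single_apply, if_neg hb]
      · intro h; exact absurd hn h
    rw [h1, Finsupp.add_apply, h3]
    abel

theorem half_measure (n : ℕ) : mZ {z : ZZ | z (Sum.inr n) = 0} = 1 / 2 := by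
  set A : Set ZZ := {z : ZZ | z (Sum.inr n) = 0} with hA
  have hAm : MeasurableSet A := measurableSet_eq_fun (measurable_pi_apply _) measurable_const
  have h1 : mZ Aᶜ = mZ A := by
    conv_rhs => rw [← mZ_add (Pi.single (Sum.inr n) 1 : ZZ)]
    rw [Measure.map_apply (measurable_add_const' _) hAm]
    congr 1
    ext z
    simp only [hA, Set.mem_compl_iff, Set.mem_ofPred_eq, Set.mem_preimage, Pi.add_apply,
      Pi.single_eq_same]
    have : ∀ a : ZMod 2, ¬ (a = 0) ↔ a + 1 = 0 := by decide
    exact this _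
  have h2 := prob_add_prob_compl (μ := mZ) hAm
  rw [h1, ← two_mul] at h2
  rw [ENNReal.eq_div_iff (by norm_num) (by norm_num)]
  exact h2

end Pool.Agent.H25R3.RE
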