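import Mathlib
import Pool.Agent.H25R3.RE.Meas

set_option autoImplicit false

namespace Pool.Agent.H25R3.RE

open MeasureTheory Set Filter Topology

instance instSBZ0 : StandardBorelSpace Z0 := Z0_measurable.standardBorel

/-- the probability measure on the good part -/
noncomputable def m0 : Measure Z0 := mZ.comap Subtype.val

theorem m0_apply (B : Set Z0) : m0 B = mZ (Subtype.val '' B) :=
  comap_subtype_coe_apply Z0_measurable mZ B

instance : IsProbabilityMeasure m0 := by
  refine ⟨?_⟩
  rw [m0_apply, Set.image_univ, Subtype.range_coe_subtype]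
  exact Z0_one

/-- the moves on the good part -/
noncomputable def mv0 (γ : GG × DD) (z : Z0) : Z0 := ⟨mv γ z.1, Z0_inv _ _ z.2 (RZ_mv γ z.1)⟩

theorem measurable_mv0 (γ : GG × DD) : Measurable (mv0 γ) :=
  ((measurable_mv γ).comp measurable_subtype_coe).subtype_mk

theorem mv0_injective (γ : GG × DD) : Function.Injective (mv0 γ) := by
  intro z w h
  exact Subtype.ext (mv_injective γ (congrArg Subtype.val h))

theorem m0_mv0 (γ : GG × DD) : m0.map (mv0 γ) = m0 := by
  ext B hB
  rw [Measure.map_apply (measurable_mv0 γ) hB, m0_apply, m0_apply]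
  have hBm : MeasurableSet (Subtype.val '' B : Set ZZ) := Z0_measurable.subtype_image hB
  have h1 : (Subtype.val '' (mv0 γ ⁻¹' B) : Set ZZ) = mv γ ⁻¹' (Subtype.val '' B) := by
    ext z
    simp only [Set.mem_image, Set.mem_preimage]
    constructor
    · rintro ⟨w, hw, rfl⟩
      exact ⟨mv0 γ w, hw, rfl⟩
    · rintro ⟨w, hw, hwz⟩
      have hz : z ∈ Z0 := by
        refine Z0_inv w.1 z w.2 ?_
        rw [hwz]
        exact RZ_equiv.symm (RZ_mv γ z)
      refine ⟨⟨z, hz⟩, ?_, rfl⟩
      have : mv0 γ ⟨z, hz⟩ = w := Subtype.ext hwz.symm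
      rw [this]; exact hw
  rw [h1, ← Measure.map_apply (measurable_mv γ) hBm, mZ_mv]

/-- Every injective measurable map moving points inside their classes preserves `m0`. -/
theorem full_group (θ : Z0 → Z0) (hθ : Measurable θ) (hinj : Function.Injective θ)
    (hR : ∀ z : Z0, RZ z (θ z)) : m0.map θ = m0 := by
  have hemb : MeasurableEmbedding θ := hθ.measurableEmbedding hinj
  obtain ⟨γ, hγ⟩ := exists_surjective_nat (GG × DD)
  have hcov : ∀ z : Z0, ∃ n, θ z = mv0 (γ n) z := by
    intro z
    obtain ⟨g, hg⟩ := exists_mv _ _ (hR z)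
    obtain ⟨n, rfl⟩ := hγ g
    exact ⟨n, Subtype.ext hg⟩
  set V : ℕ → Set Z0 := fun n => {z | θ z = mv0 (γ n) z} with hV
  have hVm : ∀ n, MeasurableSet (V n) := fun n => measurableSet_eq_fun hθ (measurable_mv0 _)
  set W : ℕ → Set Z0 := disjointed V with hW
  have hWm : ∀ n, MeasurableSet (W n) := fun n => MeasurableSet.disjointed hVm n
  have hWd : Pairwise (Function.onFun Disjoint W) := disjoint_disjointed V
  have hWU : ⋃ n, W n = Set.univ := by
    rw [hW, iUnion_disjointed]
    ext z
    simp only [Set.mem_iUnion, Set.mem_univ, iff_true]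
    exact hcov z
  have hWV : ∀ n, W n ⊆ V n := fun n => disjointed_subset V n
  have himg : ∀ A : Set Z0, MeasurableSet A → m0 (θ '' A) = m0 A := by
    intro A hA
    have h1 : θ '' A = ⋃ n, θ '' (A ∩ W n) := by
      rw [← Set.image_iUnion, ← Set.inter_iUnion, hWU, Set.inter_univ]
    have h2 : A = ⋃ n, A ∩ W n := by
      rw [← Set.inter_iUnion, hWU, Set.inter_univ]
    have h3 : ∀ n, m0 (θ '' (A ∩ W n)) = m0 (A ∩ W n) := by
      intro n
      have h4 : θ '' (A ∩ W n) = mv0 (γ n) '' (A ∩ W n) :=
        Set.image_congr (fun z hz => hWV n hz.2)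
      have h5 : MeasurableSet (mv0 (γ n) '' (A ∩ W n)) :=
        ((measurable_mv0 (γ n)).measurableEmbedding (mv0_injective _)).measurableSet_image'
          (hA.inter (hWm n))
      rw [h4]
      conv_lhs => rw [← m0_mv0 (γ n)]
      rw [Measure.map_apply (measurable_mv0 _) h5, Set.preimage_image_eq _ (mv0_injective _)]
    rw [h1, measure_iUnion, tsum_congr h3]
    · conv_rhs => rw [h2]
      rw [measure_iUnion]
      · intro i j hij
        exact (hWd hij).mono Set.inter_subset_right Set.inter_subset_right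
      · exact fun n => hA.inter (hWm n)
    · intro i j hij
      rw [Function.onFun, Set.disjoint_image_iff hinj]
      exact (hWd hij).mono Set.inter_subset_right Set.inter_subset_right
    · exact fun n => hemb.measurableSet_image' (hA.inter (hWm n))
  have hle : ∀ B : Set Z0, MeasurableSet B → m0 (θ ⁻¹' B) ≤ m0 B := by
    intro B hB
    rw [← himg _ (hθ hB)]
    exact measure_mono (Set.image_preimage_subset _ _)
  ext B hB
  rw [Measure.map_apply hθ hB]
  apply le_antisymm (hle B hB)
  have h1 := hle Bᶜ hB.compl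
  rw [Set.preimage_compl, prob_compl_eq_one_sub (hθ hB), prob_compl_eq_one_sub hB] at h1
  have h2 : m0 (θ ⁻¹' B) ≤ 1 := prob_le_one
  have h3 : m0 B ≤ 1 := prob_le_one
  exact (ENNReal.sub_le_sub_iff_left h3 (by norm_num)).1 h1

theorem core (f : Z0 → XX × ℝ) (hfm : Measurable f) (hfi : Function.Injective f)
    (hred : ∀ z z' : Z0, RZ z z' ↔ (RX (f z).1 (f z').1 ∧ (f z).2 = (f z').2))
    (hinv : ∀ z : Z0, ∀ y : XX × ℝ, RX (f z).1 y.1 → (f z).2 = y.2 → ∃ z', f z' = y) : False := by
  classical
  have hemb : MeasurableEmbedding f := hfm.measurableEmbedding hfi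
  -- the second coordinate is almost everywhere constant
  obtain ⟨r0, hr0⟩ : ∃ r0 : ℝ, ∀ᵐ z ∂m0, (f z).2 = r0 := by
    have h1 : ∀ U : Set ℝ, MeasurableSet U →
        (∀ᵐ z ∂m0, (f z).2 ∈ U) ∨ (∀ᵐ z ∂m0, (f z).2 ∉ U) := by
      intro U hU
      set WU : Set Z0 := {z | (f z).2 ∈ U} with hWU
      have hWUm : MeasurableSet WU := (measurable_snd.comp hfm) hU
      have h2 := zero_one (DZ : Set ZZ) DZ_dense mZ (fun d _ => mZ_add d)
        (Subtype.val '' WU) (Z0_measurable.subtype_image hWUm) (by
          have key : ∀ d ∈ (DZ : Set ZZ), ∀ x, x ∈ (Subtype.val '' WU : Set ZZ) →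
              x + d ∈ (Subtype.val '' WU : Set ZZ) := by
            rintro d ⟨d', rfl⟩ _ ⟨z, hz, rfl⟩
            have hR : RZ z.1 (z.1 + epsZ d') := by
              rw [RZ_iff]
              exact ⟨1, d', by rw [star_one]⟩
            refine ⟨⟨z.1 + epsZ d', Z0_inv _ _ z.2 hR⟩, ?_, rfl⟩
            have h3 := ((hred z ⟨z.1 + epsZ d', Z0_inv _ _ z.2 hR⟩).1 hR).2
            show (f _).2 ∈ U
            rw [← h3]; exact hz
          intro d hd x
          constructor
          · intro h
            have h4 := key (-d) (DZ.neg_mem hd) _ h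
            rwa [add_neg_cancel_right] at h4
          · exact key d hd x)
      rcases h2 with h2 | h2
      · right
        rw [ae_iff]
        have h3 : {z | ¬ (f z).2 ∉ U} = WU := by ext z; simp [hWU]
        rw [h3, m0_apply]; exact h2
      · left
        rw [ae_iff, m0_apply]
        refine measure_mono_null ?_ h2
        rintro _ ⟨z, hz, rfl⟩ ⟨w, hw, hwz⟩
        have : w = z := Subtype.ext hwz
        rw [this] at hw
        exact hz hw
    obtain ⟨r0, hr0⟩ := Filter.exists_eventuallyEq_const_of_forall_separating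
      (l := ae m0) (f := fun z : Z0 => (f z).2) MeasurableSet h1
    exact ⟨r0, hr0⟩
  -- lifting moves on the base
  have hlift : ∀ s : XX → XX, Measurable s → Function.Injective s → (∀ x, RX x (s x)) →
      ∃ θ : Z0 → Z0, Measurable θ ∧ (∀ z, f (θ z) = (s (f z).1, (f z).2)) ∧
        (∀ z : Z0, RZ z (θ z)) ∧ m0.map θ = m0 := by
    intro s hs hsi hsR
    have h1 : ∀ z : Z0, ∃ z', f z' = (s (f z).1, (f z).2) := fun z =>
      hinv z (s (f z).1, (f z).2) (hsR _) rfl
    choose θ hθ using h1
    have hθm : Measurable θ := by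
      rw [← hemb.measurable_comp_iff]
      have h2 : f ∘ θ = fun z => (s (f z).1, (f z).2) := funext hθ
      rw [h2]
      exact (hs.comp (measurable_fst.comp hfm)).prodMk (measurable_snd.comp hfm)
    have hθR : ∀ z : Z0, RZ z (θ z) := by
      intro z
      rw [hred, hθ]
      exact ⟨hsR _, rfl⟩
    have hθi : Function.Injective θ := by
      intro z w h
      have h2 := hθ z
      rw [h, hθ w] at h2
      apply hfi
      have h3 := congrArg Prod.fst h2
      have h4 := congrArg Prod.snd h2
      exact Prod.ext (hsi h3).symm h4.symm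
    exact ⟨θ, hθm, hθ, hθR, full_group θ hθm hθi hθR⟩
  set f1 : Z0 → XX := fun z => (f z).1 with hf1
  have hf1m : Measurable f1 := measurable_fst.comp hfm
  set lam : Measure XX := m0.map f1 with hlam
  have hprob : IsProbabilityMeasure lam := Measure.isProbabilityMeasure_map hf1m.aemeasurable
  have hlaminv : ∀ s : XX → XX, Measurable s → Function.Injective s → (∀ x, RX x (s x)) →
      lam.map s = lam := by
    intro s hs hsi hsR
    obtain ⟨θ, hθm, hθ, _, hθp⟩ := hlift s hs hsi hsR
    rw [hlam, Measure.map_map hs hf1m]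
    have h1 : s ∘ f1 = f1 ∘ θ := by
      funext z
      show s (f z).1 = (f (θ z)).1
      rw [hθ]
    rw [h1, ← Measure.map_map hf1m hθm, hθp]
  have hstarR : ∀ (g : GG) (x : XX), RX x (star eI g x) := by
    intro g x
    rw [RX_iff]
    exact ⟨g, 0, by simp⟩
  have hstari : ∀ g : GG, Function.Injective (star eI g) := by
    intro g x y h
    have h1 := congrArg (star eI g⁻¹) h
    rwa [star_inv_star, star_inv_star] at h1
  -- the sets
  set WW : Set Z0 := {z | (f z).2 = r0} with hWW
  have hWWm : MeasurableSet WW :=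
    measurableSet_eq_fun (measurable_snd.comp hfm) measurable_const
  have hinjW : Set.InjOn f1 WW := by
    intro z hz w hw h
    exact hfi (Prod.ext h (hz.trans hw.symm))
  set A : ℕ → Set Z0 := fun n => {z | z.1 (Sum.inr n) = 0} with hA
  have hAm : ∀ n, MeasurableSet (A n) := fun n =>
    measurableSet_eq_fun ((measurable_pi_apply _).comp measurable_subtype_coe) measurable_const
  have hAhalf : ∀ n, m0 (A n) = 1 / 2 := by
    intro n
    rw [m0_apply, ← half_measure n]
    have h1 : (Subtype.val '' (A n) : Set ZZ) = {z : ZZ | z (Sum.inr n) = 0} ∩ Z0 := by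
      ext z
      constructor
      · rintro ⟨w, hw, rfl⟩
        exact ⟨hw, w.2⟩
      · rintro ⟨h2, h3⟩
        exact ⟨⟨z, h3⟩, h2, rfl⟩
    rw [h1]
    exact measure_inter_conull Z0_full
  set C : ℕ → Set XX := fun n => f1 '' (A n ∩ WW) with hC
  have hCm : ∀ n, MeasurableSet (C n) := by
    intro n
    exact ((hAm n).inter hWWm).image_of_measurable_injOn hf1m
      (hinjW.mono Set.inter_subset_right)
  have hmemC : ∀ n, ∀ z ∈ WW, (f1 z ∈ C n ↔ z ∈ A n) := by
    intro n z hz
    constructor
    · rintro ⟨w, hw, hwz⟩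
      have : w = z := hinjW hw.2 hz hwz
      rw [← this]; exact hw.1
    · intro h
      exact ⟨z, ⟨h, hz⟩, rfl⟩
  refine no_almost_inv lam ?_ ?_ C hCm ?_ ?_
  · intro i
    refine hlaminv _ (measurable_add_const' _) (fun x y h => add_right_cancel h) (fun x => ?_)
    rw [RX_iff]
    refine ⟨1, Finsupp.single i 1, ?_⟩
    rw [star_one, Finsupp.single_eq_pi_single]
  · intro g
    have h1 := hlaminv (star eI g⁻¹) (measurable_star eI _) (hstari _) (hstarR _)
    have h2 : star eI g⁻¹ = fun (x : XX) j => x (eI g j) := by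
      funext x j
      unfold star
      rw [map_inv]; rfl
    rw [h2] at h1
    exact h1
  · intro n
    rw [hlam, Measure.map_apply hf1m (hCm n), ← hAhalf n]
    refine measure_congr ?_
    filter_upwards [hr0] with z hz
    exact propext (hmemC n z hz)
  · intro g
    obtain ⟨θ, hθm, hθ, hθR, _⟩ := hlift (star eI g) (measurable_star eI g) (hstari g) (hstarR g)
    have h1 : ∀ n, lam {x | ¬ ((fun j => x ((eI g).symm j)) ∈ C n ↔ x ∈ C n)}
        = m0 {z | ¬ (θ z ∈ A n ↔ z ∈ A n)} := by
      intro n
      have hmeas : MeasurableSet {x : XX | ¬ ((fun j => x ((eI g).symm j)) ∈ C n ↔ x ∈ C n)} := by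
        have h2 : {x : XX | ¬ ((fun j => x ((eI g).symm j)) ∈ C n ↔ x ∈ C n)}
            = ((star eI g ⁻¹' C n) \ C n) ∪ (C n \ (star eI g ⁻¹' C n)) := by
          ext x
          simp only [Set.mem_ofPred_eq, Set.mem_union, Set.mem_sdiff, Set.mem_preimage]
          tauto
        rw [h2]
        exact ((measurable_star eI g (hCm n)).diff (hCm n)).union
          ((hCm n).diff (measurable_star eI g (hCm n)))
      rw [hlam, Measure.map_apply hf1m hmeas]
      refine measure_congr ?_
      filter_upwards [hr0] with z hz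
      have h3 : θ z ∈ WW := by
        show (f (θ z)).2 = r0
        rw [hθ]; exact hz
      have h4 : f1 (θ z) = star eI g (f1 z) := by
        show (f (θ z)).1 = _
        rw [hθ]
      have h5 := hmemC n (θ z) h3
      rw [h4] at h5
      have h6 := hmemC n z hz
      refine propext ?_
      show ¬ (star eI g (f1 z) ∈ C n ↔ f1 z ∈ C n) ↔ ¬ (θ z ∈ A n ↔ z ∈ A n)
      rw [h5, h6]
    simp_rw [h1]
    have h2 := tendsto_measure_of_tendsto_indicator_of_isFiniteMeasure (μ := m0) (L := atTop)
      (A := (∅ : Set Z0)) (As := fun n => {z | ¬ (θ z ∈ A n ↔ z ∈ A n)}) ?_ ?_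
    · simpa using h2
    · intro n
      have h3 : {z : Z0 | ¬ (θ z ∈ A n ↔ z ∈ A n)}
          = ((θ ⁻¹' A n) \ A n) ∪ (A n \ (θ ⁻¹' A n)) := by
        ext x
        simp only [Set.mem_ofPred_eq, Set.mem_union, Set.mem_sdiff, Set.mem_preimage]
        tauto
      rw [h3]
      exact ((hθm (hAm n)).diff (hAm n)).union ((hAm n).diff (hθm (hAm n)))
    · intro z
      obtain ⟨γ, hγ⟩ := exists_mv _ _ (hθR z)
      have h4 : ∀ᶠ n in atTop, colsum γ.2 n = 0 := by
        obtain ⟨N, hN⟩ := (colsum γ.2).support.exists_nat_subset_range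
        filter_upwards [eventually_ge_atTop N] with n hn
        by_contra h
        have h5 := hN (Finsupp.mem_support_iff.2 h)
        rw [Finset.mem_range] at h5
        omega
      filter_upwards [h4] with n hn
      simp only [Set.mem_empty_iff_false, iff_false]
      intro h5
      apply h5
      show (θ z).1 (Sum.inr n) = 0 ↔ z.1 (Sum.inr n) = 0
      rw [hγ]
      show z.1 (Sum.inr n) + colsum γ.2 n = 0 ↔ z.1 (Sum.inr n) = 0
      rw [hn, add_zero]

end Pool.Agent.H25R3.RE
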