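import Mathlib

set_option autoImplicit false

namespace Pool.Agent.H25R3.RE

/-- A countable relational language. -/
structure Lang where
  /-- the relation symbols -/
  Rel : Type
  /-- there are countably many of them -/
  countable : Countable Rel
  /-- the arity of a symbol -/
  arity : Rel → ℕ

/-- Formulas of the infinitary logic `L_{ω₁ω}` (countable conjunctions, finite quantifiers) whose
free variables are among `x_0, ..., x_{n-1}`. Disjunctions and existential quantifiers are
obtained from negation. -/
inductive Form (L : Lang) : ℕ → Type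
  | rel {n : ℕ} (R : L.Rel) (v : Fin (L.arity R) → Fin n) : Form L n
  | eq {n : ℕ} (i j : Fin n) : Form L n
  | neg {n : ℕ} (φ : Form L n) : Form L n
  | conj {n : ℕ} (φ : ℕ → Form L n) : Form L n
  | all {n : ℕ} (φ : Form L (n + 1)) : Form L n

/-- An `L`-structure with universe `α`. -/
structure Str (L : Lang) (α : Type) where
  /-- interpretation of the relation symbols -/
  rel : (R : L.Rel) → (Fin (L.arity R) → α) → Prop

/-- Satisfaction. -/
def Form.Holds {L : Lang} {α : Type} (M : Str L α) : {n : ℕ} → Form L n → (Fin n → α) → Prop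
  | _, .rel R v, a => M.rel R (fun i => a (v i))
  | _, .eq i j, a => a i = a j
  | _, .neg φ, a => ¬ φ.Holds M a
  | _, .conj φ, a => ∀ k, (φ k).Holds M a
  | _, .all φ, a => ∀ x : α, φ.Holds M (Fin.snoc (α := fun _ => α) a x)

/-- The structure `M` is a model of the sentence `σ`. -/
def Models {L : Lang} {α : Type} (M : Str L α) (σ : Form L 0) : Prop :=
  σ.Holds M Fin.elim0

/-- Restriction of a structure to a subset of its universe. -/
def Str.restrict {L : Lang} {α : Type} (M : Str L α) (C : Set α) : Str L C where
  rel R a := M.rel R (fun i => (a i : α))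

/-- Countable Borel equivalence relations. -/
structure IsCBER {X : Type} [MeasurableSpace X] (E : X → X → Prop) : Prop where
  equivalence : Equivalence E
  borel : MeasurableSet {p : X × X | E p.1 p.2}
  countable : ∀ x, {y | E x y}.Countable

/-- `E ≅_B F`. -/
def BorelIso {X Y : Type} [MeasurableSpace X] [MeasurableSpace Y] (E : X → X → Prop)
    (F : Y → Y → Prop) : Prop :=
  ∃ f : X → Y, Measurable f ∧ Function.Bijective f ∧ ∀ x x', E x x' ↔ F (f x) (f x')

/-- `E ⊑_B^i F`. -/
def InvEmb {X Y : Type} [MeasurableSpace X] [MeasurableSpace Y] (E : X → X → Prop)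
    (F : Y → Y → Prop) : Prop :=
  ∃ f : X → Y, Measurable f ∧ Function.Injective f ∧ (∀ x x', E x x' ↔ F (f x) (f x')) ∧
    ∀ x y, F (f x) y → ∃ x', f x' = y

/-- `ℝE`, the relation `E × Δ_ℝ` on `X × ℝ`. -/
def timesR {X : Type} (E : X → X → Prop) : X × ℝ → X × ℝ → Prop :=
  fun p q => E p.1 q.1 ∧ p.2 = q.2

/-- `M` is a Borel `σ`-structure on `E`. -/
structure IsBorelStr {X : Type} [MeasurableSpace X] (E : X → X → Prop) {L : Lang}
    (σ : Form L 0) (M : Str L X) : Prop where
  borel : ∀ R, MeasurableSet {a | M.rel R a}
  within : ∀ R a, M.rel R a → ∀ i j, E (a i) (a j)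
  models : ∀ x, Models (M.restrict {y | E x y}) σ

/-- `E` is `σ`-structurable. -/
def Structurable {X : Type} [MeasurableSpace X] (E : X → X → Prop) {L : Lang}
    (σ : Form L 0) : Prop := ∃ M : Str L X, IsBorelStr E σ M

/-- `F` is an invariantly universal element of the class of `σ`-structurable countable Borel
equivalence relations. -/
def InvUniversal {Z : Type} [MeasurableSpace Z] (F : Z → Z → Prop) {L : Lang}
    (σ : Form L 0) : Prop :=
  IsCBER F ∧ Structurable F σ ∧
    ∀ (X : Type) [MeasurableSpace X] [StandardBorelSpace X] (E : X → X → Prop),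
      IsCBER E → Structurable E σ → InvEmb E F

/-- `E` is universally structurable: Borel isomorphic to an invariantly universal
`σ`-structurable countable Borel equivalence relation, for some sentence `σ`. -/
def UniversallyStructurable {X : Type} [MeasurableSpace X] (E : X → X → Prop) : Prop :=
  ∃ (L : Lang) (σ : Form L 0) (Z : Type) (_ : MeasurableSpace Z) (_ : StandardBorelSpace Z)
    (F : Z → Z → Prop), InvUniversal F σ ∧ BorelIso E F

/-- Isomorphic structures satisfy the same formulas. -/
theorem holds_iso {L : Lang} {α β : Type} (M : Str L α) (N : Str L β) (e : α ≃ β)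
    (h : ∀ R a, M.rel R a ↔ N.rel R (fun i => e (a i))) {n : ℕ} (φ : Form L n) :
    ∀ a : Fin n → α, φ.Holds M a ↔ φ.Holds N (fun i => e (a i)) := by
  induction φ with
  | rel R v => intro a; exact h R _
  | eq i j => intro a; exact (e.injective.eq_iff).symm
  | neg φ ih => intro a; exact not_congr (ih a)
  | conj φ ih => intro a; exact forall_congr' (fun k => ih k a)
  | all φ ih =>
    intro a
    have key : ∀ x : α, (fun i => e (Fin.snoc (α := fun _ => α) a x i))
        = Fin.snoc (α := fun _ => β) (fun i => e (a i)) (e x) := by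
      intro x
      funext i
      refine Fin.lastCases ?_ (fun j => ?_) i
      · simp
      · simp
    constructor
    · intro hx y
      have h1 := (ih _).1 (hx (e.symm y))
      rw [key, e.apply_symm_apply] at h1
      exact h1
    · intro hy x
      refine (ih _).2 ?_
      rw [key]
      exact hy (e x)

/-- Pulling back a Borel `σ`-structure along a class-bijective Borel map. -/
theorem structurable_pullback {X Y : Type} [MeasurableSpace X] [MeasurableSpace Y]
    (E : X → X → Prop) (F : Y → Y → Prop) (hE : IsCBER E) {L : Lang} (σ : Form L 0)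
    (hF : Structurable F σ) (q : X → Y) (hq : Measurable q)
    (h1 : ∀ x x', E x x' → F (q x) (q x')) (h2 : ∀ x x', E x x' → q x = q x' → x = x')
    (h3 : ∀ x y, F (q x) y → ∃ x', E x x' ∧ q x' = y) : Structurable E σ := by
  obtain ⟨M, hM⟩ := hF
  refine ⟨⟨fun R a => (∀ i j, E (a i) (a j)) ∧ M.rel R (fun i => q (a i))⟩, ?_, ?_, ?_⟩
  · intro R
    have h4 : {a : Fin (L.arity R) → X | (∀ i j, E (a i) (a j)) ∧ M.rel R (fun i => q (a i))}
        = (⋂ i, ⋂ j, (fun a : Fin (L.arity R) → X => (a i, a j)) ⁻¹' {p : X × X | E p.1 p.2})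
          ∩ (fun (a : Fin (L.arity R) → X) i => q (a i)) ⁻¹' {a | M.rel R a} := by
      ext a
      simp only [Set.mem_ofPred_eq, Set.mem_inter_iff, Set.mem_iInter, Set.mem_preimage]
    show MeasurableSet {a : Fin (L.arity R) → X | _ ∧ _}
    rw [h4]
    refine MeasurableSet.inter ?_ ?_
    · refine MeasurableSet.iInter (fun i => MeasurableSet.iInter (fun j => ?_))
      exact ((measurable_pi_apply i).prodMk (measurable_pi_apply j)) hE.borel
    · exact (measurable_pi_lambda _ (fun i => hq.comp (measurable_pi_apply i))) (hM.borel R)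
  · intro R a ha
    exact ha.1
  · intro x
    have hbij : Function.Bijective
        (fun c : {y | E x y} => (⟨q c.1, h1 x c.1 c.2⟩ : {y | F (q x) y})) := by
      constructor
      · intro c c' hcc
        apply Subtype.ext
        exact h2 _ _ (hE.equivalence.trans (hE.equivalence.symm c.2) c'.2)
          (congrArg Subtype.val hcc)
      · rintro ⟨y, hy⟩
        obtain ⟨x', hx', rfl⟩ := h3 x y hy
        exact ⟨⟨x', hx'⟩, rfl⟩
    have h5 := holds_iso
      (Str.restrict ⟨fun R a => (∀ i j, E (a i) (a j)) ∧ M.rel R (fun i => q (a i))⟩ {y | E x y})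
      (M.restrict {y | F (q x) y}) (Equiv.ofBijective _ hbij) (by
        intro R a
        show ((∀ i j, E (a i).1 (a j).1) ∧ M.rel R (fun i => q (a i).1))
          ↔ M.rel R (fun i => q (a i).1)
        constructor
        · exact fun h => h.2
        · intro h
          exact ⟨fun i j => hE.equivalence.trans (hE.equivalence.symm (a i).2) (a j).2, h⟩)
      σ Fin.elim0
    have h6 : (fun i => (Equiv.ofBijective _ hbij) ((Fin.elim0 : Fin 0 → {y | E x y}) i))
        = (Fin.elim0 : Fin 0 → {y | F (q x) y}) := by
      funext i; exact i.elim0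
    rw [h6] at h5
    exact h5.2 (hM.models (q x))

end Pool.Agent.H25R3.RE
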